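import Pool.Agent.Q241.MS.PD

/-! # Project MS (helper113), job NEG -/

set_option autoImplicit false

namespace Pool.Agent.Q241.MS

open Finset
open Pool.Agent.Q113.MS

lemma choose1 {n k : ℕ} (hn : 1 ≤ n) (hk : k ≤ n) :
    (n : ℝ) * ((n - 1).choose k : ℝ) = ((n : ℝ) - k) * (n.choose k : ℝ) := by
  obtain ⟨n', rfl⟩ : ∃ n', n = n' + 1 := ⟨n - 1, by omega⟩
  have h := Nat.choose_mul_succ_eq n' k
  rw [Nat.add_sub_cancel]
  have h' : ((n'.choose k * (n' + 1) : ℕ) : ℝ) = (((n' + 1).choose k * (n' + 1 - k) : ℕ) : ℝ) := by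
    rw [h]
  rw [Nat.cast_mul, Nat.cast_mul, Nat.cast_sub hk] at h'
  push_cast at h' ⊢
  linarith

lemma choose2 {n k : ℕ} (hn : 2 ≤ n) (hk : k + 1 ≤ n) :
    (n : ℝ) * ((n : ℝ) - 1) * ((n - 2).choose k : ℝ) =
      ((n : ℝ) - k) * ((n : ℝ) - k - 1) * (n.choose k : ℝ) := by
  have h1 := choose1 (n := n) (k := k) (by omega) (by omega)
  have h2 := choose1 (n := n - 1) (k := k) (by omega) (by omega)
  have e1 : n - 1 - 1 = n - 2 := by omega
  have e2 : ((n - 1 : ℕ) : ℝ) = (n : ℝ) - 1 := by rw [Nat.cast_sub (by omega)]; simp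
  rw [e1, e2] at h2
  linear_combination (n : ℝ) * h2 + ((n : ℝ) - 1 - k) * h1

lemma choose3 {n k : ℕ} (hn : 2 ≤ n) (hk1 : 1 ≤ k) (hk : k + 1 ≤ n) :
    (n : ℝ) * ((n : ℝ) - 1) * ((n - 2).choose (k - 1) : ℝ) =
      (k : ℝ) * ((n : ℝ) - k) * (n.choose k : ℝ) := by
  have h1 := k_choose (n := n) (k := k) hk1 (by omega)
  have h2 := choose1 (n := n - 1) (k := k - 1) (by omega) (by omega)
  have e1 : n - 1 - 1 = n - 2 := by omega
  have e2 : ((n - 1 : ℕ) : ℝ) = (n : ℝ) - 1 := by rw [Nat.cast_sub (by omega)]; simp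
  have e3 : ((k - 1 : ℕ) : ℝ) = (k : ℝ) - 1 := by rw [Nat.cast_sub (by omega)]; simp
  rw [e1, e2, e3] at h2
  linear_combination (n : ℝ) * h2 - ((n : ℝ) - k) * h1

section

variable {α : Type} [DecidableEq α]

lemma NN_mono {V' V : Finset α} (h : V' ⊆ V) (k : ℕ) (x : α → ℝ) : NN V' k x ≤ NN V k x := by
  unfold NN
  exact card_le_card (filter_subset_filter _ (powersetCard_mono h))

lemma split_le (V : Finset α) (k : ℕ) (x : α → ℝ) {a : α} (hk : 1 ≤ k) (ha : a ∈ V) :
    (((V.erase a).powersetCard (k - 1)).filter (fun B => -x a ≤ ∑ i ∈ B, x i)).card +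
      NN (V.erase a) k x ≤ NN V k x := by
  unfold NN
  have hinj : Set.InjOn (insert a)
      (((V.erase a).powersetCard (k - 1)).filter (fun B => -x a ≤ ∑ i ∈ B, x i) : Set (Finset α)) := by
    intro B hB B' hB' h
    rw [mem_coe, mem_filter, mem_powersetCard] at hB hB'
    have h1 : a ∉ B := fun h => notMem_erase a V (hB.1.1 h)
    have h2 : a ∉ B' := fun h => notMem_erase a V (hB'.1.1 h)
    rw [← erase_insert h1, ← erase_insert h2, h]
  rw [← card_image_of_injOn hinj, ← card_union_of_disjoint]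
  · refine card_le_card (union_subset ?_ ?_)
    · intro S hS
      rw [mem_image] at hS
      obtain ⟨B, hB, rfl⟩ := hS
      rw [mem_filter, mem_powersetCard] at hB
      have h1 : a ∉ B := fun h => notMem_erase a V (hB.1.1 h)
      rw [mem_filter, mem_powersetCard, card_insert_of_notMem h1, sum_insert h1]
      refine ⟨⟨insert_subset ha (hB.1.1.trans (erase_subset _ _)), ?_⟩, by linarith [hB.2]⟩
      rw [hB.1.2]
      omega
    · exact filter_subset_filter _ (powersetCard_mono (erase_subset _ _))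
  · rw [disjoint_left]
    intro S hS hS'
    rw [mem_image] at hS
    obtain ⟨B, hB, rfl⟩ := hS
    rw [mem_filter, mem_powersetCard] at hS'
    exact notMem_erase a V (hS'.1.1 (mem_insert_self a B))

lemma count_compl (W : Finset α) (k : ℕ) (x : α → ℝ) (s : ℝ) :
    ((((W.powersetCard k).filter (fun B => ∑ i ∈ B, x i < s)).card : ℕ) : ℝ) +
      ((((W.powersetCard k).filter (fun B => s ≤ ∑ i ∈ B, x i)).card : ℕ) : ℝ) =
      (W.card.choose k : ℝ) := by
  have hc := card_filter_add_card_filter_not (s := W.powersetCard k) (fun B => ∑ i ∈ B, x i < s)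
  simp only [not_lt] at hc
  rw [card_powersetCard] at hc
  exact_mod_cast hc

end

/-- **job NEG** -/
theorem t_NEG : S_NDL → S_WMM → S_LT → S_NEG := by
  classical
  intro hNDL hWMM hLT α _ V k x h φ φ' g1 g2 hk hkn hφ'0 hφφ hφ hsum hh hxh hdom hpos hg1 hg2 hG1 hG2
  set n := V.card with hn
  set Q := ∑ i ∈ V, x i ^ 2 with hQ
  set V1 := V.erase h with hV1
  set H := -x h with hH
  have hH0 : 0 < H := by linarith
  have hkR : (2 : ℝ) ≤ k := by exact_mod_cast hk
  have hnR : (9 : ℝ) * k ≤ n := by exact_mod_cast hkn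
  have hV1c : V1.card = n - 1 := card_erase_of_mem hh
  have hV1R : (V1.card : ℝ) = (n : ℝ) - 1 := by
    rw [hV1c, Nat.cast_sub (by omega)]
    simp
  have hV1sum : ∑ i ∈ V1, x i = H := by
    have := add_sum_erase V x hh
    linarith
  have hV1sq : ∑ i ∈ V1, x i ^ 2 = Q - H ^ 2 := by
    have h1 := add_sum_erase V (fun i => x i ^ 2) hh
    have h2 : x h ^ 2 + ∑ i ∈ V1, x i ^ 2 = Q := h1
    have h3 : H ^ 2 = x h ^ 2 := by rw [hH]; ring
    linarith
  have hn1 : (0 : ℝ) < (n : ℝ) - 1 := by linarith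
  set μ := H / ((n : ℝ) - 1) with hμ
  have hμ0 : 0 < μ := div_pos hH0 hn1
  have hμn : μ * ((n : ℝ) - 1) = H := by rw [hμ]; field_simp
  set Qc := ∑ i ∈ V1, (x i - μ) ^ 2 with hQc
  have hQcle : Qc ≤ Q - H ^ 2 := by
    have h1 : Qc = Q - H ^ 2 - μ * H := by
      rw [hQc]
      have h2 : ∀ i ∈ V1, (x i - μ) ^ 2 = x i ^ 2 - 2 * μ * x i + μ ^ 2 := fun i _ => by ring
      rw [sum_congr rfl h2, sum_add_distrib, sum_sub_distrib, ← mul_sum, hV1sq, hV1sum, sum_const,
        nsmul_eq_mul, hV1R]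
      linear_combination μ * hμn
    have h2 : 0 < μ * H := mul_pos hμ0 hH0
    linarith
  have hQc0 : 0 ≤ Qc := sum_nonneg fun i _ => sq_nonneg _
  have hφ1 : 0 < 1 - φ := by linarith
  have hφ'1 : 0 < 1 - φ' := by linarith
  have hHQ : φ * Q < H ^ 2 := by
    have h3 : H ^ 2 = x h ^ 2 := by rw [hH]; ring
    rw [h3]
    exact hdom
  by_cases hA : ∀ i ∈ V1, (x i - μ) ^ 2 ≤ φ' * Qc
  · -- case A
    left
    have hmean : (∑ j ∈ V1, x j) / (V1.card : ℝ) = μ := by rw [hV1sum, hV1R]
    have h1 := hNDL α V1 k x φ' hk (by omega) hφ'0.le (by linarith) (by rw [hV1sum]; exact hH0.le)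
      (by rw [hmean]; exact hA)
    rw [hV1R, hV1c] at h1
    refine h1.trans ?_
    refine mul_le_mul_of_nonneg_left ?_ ?_
    · exact_mod_cast NN_mono (erase_subset _ _) k x
    · have h2 : (8 : ℝ) ≤ ((n : ℝ) - 1) / k := by
        rw [le_div_iff₀ (by linarith)]
        linarith
      have h3 : 0 ≤ φ' * (((n : ℝ) - 1) / k - 34 / 7) := mul_nonneg hφ'0.le (by linarith)
      linarith
  · push Not at hA
    obtain ⟨a, ha, haQ⟩ := hA
    set V2 := V1.erase a with hV2
    have hV2c : V2.card = n - 2 := by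
      rw [hV2, card_erase_of_mem ha, hV1c]
      omega
    have hV2R : (V2.card : ℝ) = (n : ℝ) - 2 := by
      rw [hV2c, Nat.cast_sub (by omega)]
      simp
    have hV2sum : ∑ i ∈ V2, x i = H - x a := by
      have := add_sum_erase V1 x ha
      linarith
    have hV2z : ∑ i ∈ V2, (x i - μ) ^ 2 = Qc - (x a - μ) ^ 2 := by
      have h1 := add_sum_erase V1 (fun i => (x i - μ) ^ 2) ha
      have h2 : (x a - μ) ^ 2 + ∑ i ∈ V2, (x i - μ) ^ 2 = Qc := h1
      linarith
    have hV2V : V2 ⊆ V := (erase_subset _ _).trans (erase_subset _ _)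
    have hn2 : (0 : ℝ) < (n : ℝ) - 2 := by linarith
    have hnpos : (0 : ℝ) < n := by linarith
    have hCn0 : (0 : ℝ) ≤ (n.choose k : ℝ) := Nat.cast_nonneg _
    rcases lt_trichotomy (x a - μ) 0 with hz | hz | hz
    · -- case C
      right; right
      refine ⟨_, rfl, ?_⟩
      set G := (g1 * (((n : ℝ) - 2) / ((n : ℝ) - 1)) + g2) ^ 2 with hG
      set zg := x a - μ with hzg
      set Q2 := Qc - zg ^ 2 with hQ2
      have hQ20 : 0 ≤ Q2 := by
        rw [← hV2z]
        exact sum_nonneg fun i _ => sq_nonneg _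
      set T2 := H - x a with hT2
      have hT2e : T2 = -zg + ((n : ℝ) - 2) / ((n : ℝ) - 1) * H := by
        rw [hT2, hzg, hμ]
        field_simp
        ring
      -- bounds
      have b1 : g2 ^ 2 * Q2 ≤ zg ^ 2 := by
        have h1 : φ' * Q2 ≤ (1 - φ') * zg ^ 2 := by rw [hQ2]; nlinarith
        have h2 : g2 ^ 2 * Q2 * (1 - φ') ≤ zg ^ 2 * (1 - φ') := by nlinarith
        exact le_of_mul_le_mul_right h2 hφ'1
      have b2 : g1 ^ 2 * Q2 ≤ H ^ 2 := by
        have h1 : Q2 ≤ (1 - φ') * Qc := by rw [hQ2]; nlinarith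
        have h2 : φ * Qc ≤ (1 - φ) * H ^ 2 := by nlinarith
        have h3 : g1 ^ 2 * Q2 * (1 - φ) ≤ H ^ 2 * (1 - φ) := by
          calc g1 ^ 2 * Q2 * (1 - φ) ≤ g1 ^ 2 * ((1 - φ') * Qc) * (1 - φ) := by
                refine mul_le_mul_of_nonneg_right ?_ hφ1.le
                exact mul_le_mul_of_nonneg_left h1 (sq_nonneg _)
            _ = (g1 ^ 2 * ((1 - φ) * (1 - φ'))) * Qc := by ring
            _ ≤ φ * Qc := mul_le_mul_of_nonneg_right hG1 hQc0
            _ ≤ (1 - φ) * H ^ 2 := h2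
            _ = _ := by ring
        exact le_of_mul_le_mul_right h3 hφ1
      set s := Real.sqrt Q2 with hs
      have hs0 : 0 ≤ s := Real.sqrt_nonneg _
      have hss : s ^ 2 = Q2 := Real.sq_sqrt hQ20
      have c1 : g2 * s ≤ -zg := by
        refine le_of_sq_le_sq ?_ (by linarith)
        calc (g2 * s) ^ 2 = g2 ^ 2 * Q2 := by rw [← hss]; ring
          _ ≤ zg ^ 2 := b1
          _ = (-zg) ^ 2 := by ring
      have c2 : g1 * s ≤ H := by
        refine le_of_sq_le_sq ?_ hH0.le
        calc (g1 * s) ^ 2 = g1 ^ 2 * Q2 := by rw [← hss]; ring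
          _ ≤ H ^ 2 := b2
      set ρ := ((n : ℝ) - 2) / ((n : ℝ) - 1) with hρ
      have hρ0 : 0 < ρ := div_pos hn2 hn1
      have c3 : (g1 * ρ + g2) * s ≤ T2 := by
        rw [hT2e]
        have := mul_le_mul_of_nonneg_left c2 hρ0.le
        linarith
      have hT20 : 0 < T2 := by
        rw [hT2e]
        have := mul_pos hρ0 hH0
        linarith
      have c4 : G * Q2 ≤ T2 ^ 2 := by
        rw [hG, ← hss, ← mul_pow]
        exact pow_le_pow_left₀ (by positivity) c3 2
      have hG0 : 0 ≤ G := sq_nonneg _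
      set r := (k : ℝ) / ((n : ℝ) - 2) with hr
      have hr0 : 0 < r := div_pos (by linarith) hn2
      set p := (k : ℝ) / n with hp
      have hp0 : 0 < p := div_pos (by linarith) hnpos
      have hpr : p ≤ r := by
        rw [hp, hr]
        exact div_le_div_of_nonneg_left (by linarith) hn2 (by linarith)
      have h1 := hLT α V2 k x μ Q2 (-T2) 0 (by omega) (by omega) (by rw [hV2z]) (by rw [hV2sum]; simp)
        (by rw [hV2R]; nlinarith)
      rw [hV2R, hV2c, neg_zero, ← hr] at h1
      set c : ℝ := (((V2.powersetCard k).filter (fun B => ∑ i ∈ B, x i < 0)).card : ℝ) with hc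
      set C2 : ℝ := ((n - 2).choose k : ℝ) with hC2
      have hc0 : 0 ≤ c := Nat.cast_nonneg _
      have hC20 : 0 ≤ C2 := Nat.cast_nonneg _
      have h2 : c * (Q2 + r * T2 ^ 2) ≤ Q2 * C2 := by
        refine le_of_mul_le_mul_left ?_ hr0
        calc r * (c * (Q2 + r * T2 ^ 2)) = c * (r * Q2 + (0 - r * (-T2)) ^ 2) := by ring
          _ ≤ r * Q2 * C2 := h1
          _ = r * (Q2 * C2) := by ring
      have h3 : c * (1 + p * G) ≤ C2 := by
        rcases hQ20.eq_or_lt with hq | hq
        · rw [← hq, zero_mul, zero_add] at h2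
          have h4 : 0 < r * T2 ^ 2 := by positivity
          have h5 : c = 0 := by
            by_contra hne
            have h6 : 0 < c := lt_of_le_of_ne hc0 (Ne.symm hne)
            have := mul_pos h6 h4
            linarith
          rw [h5, zero_mul]
          exact hC20
        · refine le_of_mul_le_mul_left ?_ hq
          calc Q2 * (c * (1 + p * G)) = c * (Q2 + p * (G * Q2)) := by ring
            _ ≤ c * (Q2 + r * T2 ^ 2) := by
                refine mul_le_mul_of_nonneg_left ?_ hc0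
                have : p * (G * Q2) ≤ r * T2 ^ 2 :=
                  mul_le_mul hpr c4 (mul_nonneg hG0 hQ20) hr0.le
                linarith
            _ ≤ Q2 * C2 := h2
      have h4 := count_compl V2 k x 0
      rw [hV2c, ← hc, ← hC2] at h4
      have h5 : (((V2.powersetCard k).filter (fun B => 0 ≤ ∑ i ∈ B, x i)).card : ℝ) ≤ (NN V k x : ℝ) := by
        exact_mod_cast NN_mono hV2V k x
      have h6 : 0 < 1 + p * G := by positivity
      have h7 : p * G / (1 + p * G) * C2 ≤ (NN V k x : ℝ) := by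
        refine le_trans ?_ h5
        have h8 : p * G / (1 + p * G) = 1 - 1 / (1 + p * G) := by field_simp; ring
        have h9 : c ≤ 1 / (1 + p * G) * C2 := by
          rw [one_div, ← div_eq_inv_mul, le_div_iff₀ h6]
          exact h3
        rw [h8]
        linarith
      have h8 := choose2 (n := n) (k := k) (by omega) (by omega)
      have h9 : ((n : ℝ) - k) * ((n : ℝ) - k - 1) / ((n : ℝ) * ((n : ℝ) - 1)) *
          (p * G / (1 + p * G)) * (n.choose k : ℝ) = p * G / (1 + p * G) * C2 := by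
        rw [hC2]
        have h10 : (n : ℝ) * ((n : ℝ) - 1) ≠ 0 := by positivity
        have h11 : ((n - 2).choose k : ℝ) =
            ((n : ℝ) - k) * ((n : ℝ) - k - 1) * (n.choose k : ℝ) / ((n : ℝ) * ((n : ℝ) - 1)) := by
          rw [eq_div_iff h10]
          linarith
        rw [h11]
        ring
      rw [h9]
      exact h7
    · -- impossible
      exfalso
      rw [hz] at haQ
      have := mul_nonneg hφ'0.le hQc0
      norm_num at haQ
      linarith
    · -- case B
      right; left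
      set M := x a with hM
      have hM0 : 0 < M := by linarith
      have haV : a ∈ V := (mem_erase.mp ha).2
      have hMφ : M ^ 2 ≤ φ * Q := hpos a haV hM0
      have hMH : M < H := by
        refine lt_of_pow_lt_pow_left₀ 2 hH0.le ?_
        linarith
      set ψ := 1 / φ' - 1 with hψ
      have hψ0 : 0 < ψ := by
        rw [hψ, sub_pos, lt_div_iff₀ hφ'0]
        linarith
      have hz2 : ∑ i ∈ V2, (x i - μ) ^ 2 ≤ ψ * M ^ 2 := by
        rw [hV2z]
        have h1 : Qc ≤ 1 / φ' * (M - μ) ^ 2 := by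
          rw [one_div, ← div_eq_inv_mul, le_div_iff₀ hφ'0]
          linarith
        have h2 : (M - μ) ^ 2 ≤ M ^ 2 := pow_le_pow_left₀ hz.le (by linarith) 2
        have h3 : ψ * (M - μ) ^ 2 ≤ ψ * M ^ 2 := mul_le_mul_of_nonneg_left h2 hψ0.le
        rw [hψ] at h3 ⊢
        linarith
      have e3 : ((k - 1 : ℕ) : ℝ) = (k : ℝ) - 1 := by rw [Nat.cast_sub (by omega)]; simp
      set r := ((k : ℝ) - 1) / ((n : ℝ) - 2) with hr
      have hr0 : 0 < r := div_pos (by linarith) hn2
      set p := (k : ℝ) / n with hp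
      have hp0 : 0 < p := div_pos (by linarith) hnpos
      have hrp : r ≤ p := by
        rw [hp, hr, div_le_div_iff₀ hn2 hnpos]
        nlinarith
      have h1 := hLT α V2 (k - 1) x μ (ψ * M ^ 2) 0 M (by omega) (by omega) hz2
        (by rw [hV2sum]; linarith) (by rw [mul_zero]; exact hM0)
      rw [hV2R, hV2c, e3, ← hr] at h1
      set c : ℝ := (((V2.powersetCard (k - 1)).filter (fun B => ∑ i ∈ B, x i < -M)).card : ℝ) with hc
      set C3 : ℝ := ((n - 2).choose (k - 1) : ℝ) with hC3
      have hc0 : 0 ≤ c := Nat.cast_nonneg _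
      have hC30 : 0 ≤ C3 := Nat.cast_nonneg _
      have hM2 : 0 < M ^ 2 := by positivity
      have h2 : c * (r * ψ + 1) ≤ r * ψ * C3 := by
        refine le_of_mul_le_mul_right ?_ hM2
        calc c * (r * ψ + 1) * M ^ 2 = c * (r * (ψ * M ^ 2) + (M - r * 0) ^ 2) := by ring
          _ ≤ r * (ψ * M ^ 2) * C3 := h1
          _ = r * ψ * C3 * M ^ 2 := by ring
      have h3 := count_compl V2 (k - 1) x (-M)
      rw [hV2c, ← hc, ← hC3] at h3
      set c' : ℝ := (((V2.powersetCard (k - 1)).filter (fun B => -M ≤ ∑ i ∈ B, x i)).card : ℝ) with hc'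
      have h4 : C3 * (1 / (1 + p * ψ)) ≤ c' := by
        have h5 : C3 ≤ c' * (1 + r * ψ) := by
          have : c = C3 - c' := by linarith
          rw [this] at h2
          linarith
        have h6 : c' * (1 + r * ψ) ≤ c' * (1 + p * ψ) := by
          refine mul_le_mul_of_nonneg_left ?_ (Nat.cast_nonneg _)
          have := mul_le_mul_of_nonneg_right hrp hψ0.le
          linarith
        rw [mul_one_div, div_le_iff₀ (by positivity)]
        linarith
      have h5 := hWMM α V2 k x hk (by omega) (by rw [hV2sum]; linarith)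
      rw [hV2R, hV2c] at h5
      set C2 : ℝ := ((n - 2).choose k : ℝ) with hC2
      set N2 : ℝ := (NN V2 k x : ℝ) with hN2
      have hsp : (((V1.erase a).powersetCard (k - 1)).filter (fun B => -x a ≤ ∑ i ∈ B, x i)).card +
          NN (V1.erase a) k x ≤ NN V k x :=
        (split_le V1 k x (by omega) ha).trans (NN_mono (erase_subset _ _) k x)
      have hsp' : c' + N2 ≤ (NN V k x : ℝ) := by
        rw [hc', hN2]
        exact_mod_cast hsp
      refine le_trans ?_ hsp'
      have k2 := choose2 (n := n) (k := k) (by omega) (by omega)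
      have k3 := choose3 (n := n) (k := k) (by omega) (by omega) (by omega)
      rw [← hC2] at k2
      rw [← hC3] at k3
      have hnn : (0 : ℝ) < (n : ℝ) * ((n : ℝ) - 1) := by positivity
      have e4 : (k : ℝ) * ((n : ℝ) - k) / ((n : ℝ) * ((n : ℝ) - 1)) * (n.choose k : ℝ) = C3 := by
        rw [div_mul_eq_mul_div, div_eq_iff hnn.ne']
        linarith
      have hnk2 : (0 : ℝ) < (n : ℝ) - 2 - k := by linarith
      have e5 : 927 / 2000 * C3 ≤ N2 := by
        refine le_of_mul_le_mul_left ?_ hnk2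
        have e6 : ((n : ℝ) - 2 - k) * C3 ≤ k * C2 := by
          refine le_of_mul_le_mul_left ?_ hnn
          have e7 : (n : ℝ) * ((n : ℝ) - 1) * (((n : ℝ) - 2 - k) * C3) =
              ((n : ℝ) - 2 - k) * ((k : ℝ) * ((n : ℝ) - k) * (n.choose k : ℝ)) := by
            rw [← k3]
            ring
          have e8 : (n : ℝ) * ((n : ℝ) - 1) * ((k : ℝ) * C2) =
              (k : ℝ) * (((n : ℝ) - k) * ((n : ℝ) - k - 1) * (n.choose k : ℝ)) := by
            rw [← k2]
            ring
          rw [e7, e8]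
          have e9 : 0 ≤ (k : ℝ) * ((n : ℝ) - k) * (n.choose k : ℝ) :=
            mul_nonneg (mul_nonneg (by linarith) (by linarith)) hCn0
          linarith
        calc ((n : ℝ) - 2 - k) * (927 / 2000 * C3) = 927 / 2000 * (((n : ℝ) - 2 - k) * C3) := by ring
          _ ≤ 927 / 2000 * (k * C2) := mul_le_mul_of_nonneg_left e6 (by norm_num)
          _ = 927 / 2000 * k * C2 := by ring
          _ ≤ _ := h5
      calc (k : ℝ) * ((n : ℝ) - k) / ((n : ℝ) * ((n : ℝ) - 1)) *
            (1 / (1 + p * ψ) + 927 / 2000) * (n.choose k : ℝ)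
          = ((k : ℝ) * ((n : ℝ) - k) / ((n : ℝ) * ((n : ℝ) - 1)) * (n.choose k : ℝ)) *
              (1 / (1 + p * ψ) + 927 / 2000) := by ring
        _ = C3 * (1 / (1 + p * ψ)) + 927 / 2000 * C3 := by rw [e4]; ring
        _ ≤ c' + N2 := add_le_add h4 e5

end Pool.Agent.Q241.MS
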