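import Pool.Agent.Q113.MS.Stm

/-! # Project MS (helper113), job PD -/

set_option autoImplicit false

namespace Pool.Agent.Q241.MS

open Finset
open Pool.Agent.Q113.MS

lemma k_choose {n k : ℕ} (hk : 1 ≤ k) (hn : 1 ≤ n) :
    (k : ℝ) * (n.choose k : ℝ) = (n : ℝ) * ((n - 1).choose (k - 1) : ℝ) := by
  obtain ⟨k', rfl⟩ : ∃ k', k = k' + 1 := ⟨k - 1, by omega⟩
  obtain ⟨n', rfl⟩ : ∃ n', n = n' + 1 := ⟨n - 1, by omega⟩
  have h := Nat.add_one_mul_choose_eq n' k'
  rw [Nat.add_sub_cancel, Nat.add_sub_cancel]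
  have h' : (((n' + 1) * n'.choose k' : ℕ) : ℝ) = (((n' + 1).choose (k' + 1) * (k' + 1) : ℕ) : ℝ) := by
    rw [h]
  push_cast at h' ⊢
  linarith

lemma num_tau {r : ℝ} (hr0 : 0 < r) (hr : r ≤ 2 / 17) :
    (6022 / 10000 : ℝ) ≤ 1 - qt (r * (69 / 31)) (17 / 50 * 5 - r * (1 + 5)) -
      qt (r * (69 / 31)) (2 / 25 * 5 + r * (1 + 5)) := by
  have h1 : qt (r * (69 / 31)) (17 / 50 * 5 - r * (1 + 5)) ≤ 2095 / 10000 := by
    unfold qt
    have hpos : 0 < r * (69 / 31) + (17 / 50 * 5 - r * (1 + 5)) ^ 2 := by positivity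
    rw [div_le_iff₀ hpos]
    nlinarith [mul_nonneg (sub_nonneg.mpr hr) (sub_nonneg.mpr hr), mul_nonneg (sub_nonneg.mpr hr) hr0.le]
  have h2 : qt (r * (69 / 31)) (2 / 25 * 5 + r * (1 + 5)) ≤ 1883 / 10000 := by
    unfold qt
    have hpos : 0 < r * (69 / 31) + (2 / 25 * 5 + r * (1 + 5)) ^ 2 := by positivity
    rw [div_le_iff₀ hpos]
    nlinarith [sq_nonneg (2 / 5 - 6 * r)]
  linarith

lemma num_t3 : (8302 / 10000 : ℝ) ≤ 1 - qt (69 / 31) ((1 - 17 / 50) * 5) := by
  unfold qt
  norm_num

lemma num_t2 : qt ((69 / 31) / 4) ((1 - 2 / 25) / (2 * (1 + 2 / 25)) * ((1 - 17 / 50) * 5)) ≤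
    2198 / 10000 := by
  unfold qt
  norm_num

/-- **job PD** -/
theorem t_PD : S_SPL → S_LT → S_DC → S_TAU → S_PD := by
  classical
  intro hSPL hLT hDC hTAU hMMC α _ V k x a hk hkn hsum ha hxa hdom
  set W := V.erase a with hW
  set M := x a with hM
  have hWc : W.card = V.card - 1 := card_erase_of_mem ha
  have hWsum : ∑ i ∈ W, x i = -M := by
    have := add_sum_erase V x ha
    linarith
  have hWsq : ∑ i ∈ W, x i ^ 2 ≤ 69 / 31 * M ^ 2 := by
    have h1 := add_sum_erase V (fun i => x i ^ 2) ha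
    have h2 : x a ^ 2 + ∑ i ∈ W, x i ^ 2 = ∑ i ∈ V, x i ^ 2 := h1
    rw [← hM] at h2
    linarith
  have hkR : (2 : ℝ) ≤ k := by exact_mod_cast hk
  have hnR : (10 : ℝ) * k ≤ V.card := by exact_mod_cast hkn
  -- DC
  have hdc : ((W.powersetCard (k - 1)).filter (fun B => ∑ i ∈ B, x i < -M)).card ≤ NN W k x := by
    refine hDC α W k x M (5 * M) (17 / 20) (69 / 100) (11 / 25) (by omega) (by omega) (by norm_num)
      (by norm_num) (by norm_num) (by positivity) ?_ ?_ ?_ (by norm_num)
    · -- first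
      intro B hB hBs
      rw [mem_powersetCard] at hB
      have hc : (W \ B).card = V.card - k := by
        rw [card_sdiff_of_subset hB.1, hB.2, hWc]
        omega
      have htot : 0 ≤ ∑ i ∈ W \ B, x i := by
        have := sum_sdiff (f := x) hB.1
        linarith
      have h1 := hMMC α (W \ B) k x hk (by omega) htot
      rw [hc] at h1
      have h2 := k_choose (n := V.card - k) (k := k) (by omega) (by omega)
      have h3 : (0 : ℝ) < ((V.card - k : ℕ) : ℝ) := by
        exact_mod_cast (by omega : 0 < V.card - k)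
      have h4 : W.card - k = V.card - k - 1 := by omega
      rw [h4]
      refine le_of_mul_le_mul_left ?_ h3
      calc ((V.card - k : ℕ) : ℝ) * (17 / 20 * ((V.card - k - 1).choose (k - 1) : ℝ))
          = 17 / 20 * (((V.card - k : ℕ) : ℝ) * ((V.card - k - 1).choose (k - 1) : ℝ)) := by ring
        _ = 17 / 20 * ((k : ℝ) * ((V.card - k).choose k : ℝ)) := by rw [h2]
        _ = 17 / 20 * (k : ℝ) * ((V.card - k).choose k : ℝ) := by ring
        _ ≤ _ := h1
    · -- second
      intro A hA hA0 hA5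
      rw [mem_powersetCard] at hA
      have hc : (W \ A).card = W.card - k := by
        rw [card_sdiff_of_subset hA.1, hA.2]
      have htot : ∑ i ∈ W \ A, x i = -M - ∑ i ∈ A, x i := by
        have := sum_sdiff (f := x) hA.1
        linarith
      have hsq : ∑ i ∈ W \ A, (x i - 0) ^ 2 ≤ 69 / 31 * M ^ 2 := by
        simp only [sub_zero]
        exact (sum_le_sum_of_subset_of_nonneg sdiff_subset fun i _ _ => sq_nonneg _).trans hWsq
      set r : ℝ := ((k - 1 : ℕ) : ℝ) / ((W \ A).card : ℝ) with hr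
      have hk1 : (0 : ℝ) < ((k - 1 : ℕ) : ℝ) := by exact_mod_cast (by omega : 0 < k - 1)
      have hcp : (0 : ℝ) < ((W \ A).card : ℝ) := by
        rw [hc]
        exact_mod_cast (by omega : 0 < W.card - k)
      have hr0 : 0 < r := div_pos hk1 hcp
      have hr9 : r ≤ 1 / 9 := by
        rw [hr, div_le_iff₀ hcp, hc]
        have : (9 : ℝ) * ((k - 1 : ℕ) : ℝ) ≤ ((W.card - k : ℕ) : ℝ) := by
          exact_mod_cast (by omega : 9 * (k - 1) ≤ W.card - k)
        linarith
      have h1 := hLT α (W \ A) (k - 1) x 0 (69 / 31 * M ^ 2) (6 * M) M (by omega) (by omega) hsq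
        (by rw [htot]; linarith) (by rw [← hr]; nlinarith)
      rw [← hr, hc] at h1
      set c : ℝ := ((((W \ A).powersetCard (k - 1)).filter (fun B => ∑ i ∈ B, x i < -M)).card : ℝ) with hcdef
      set C : ℝ := ((W.card - k).choose (k - 1) : ℝ) with hC
      have hc0 : 0 ≤ c := Nat.cast_nonneg _
      have h2 : r ≤ (1 - 6 * r) ^ 2 := by nlinarith
      have h3 : c * (r * (69 / 31) + r) * M ^ 2 ≤ r * (69 / 31) * C * M ^ 2 := by
        calc c * (r * (69 / 31) + r) * M ^ 2
            ≤ c * (r * (69 / 31) + (1 - 6 * r) ^ 2) * M ^ 2 := by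
              refine mul_le_mul_of_nonneg_right ?_ (sq_nonneg M)
              exact mul_le_mul_of_nonneg_left (by linarith) hc0
          _ = c * (r * (69 / 31 * M ^ 2) + (M - r * (6 * M)) ^ 2) := by ring
          _ ≤ _ := h1
          _ = _ := by ring
      have hM2 : 0 < M ^ 2 := by positivity
      have h4 := le_of_mul_le_mul_right h3 hM2
      have h5 : r * (c * (100 / 31)) ≤ r * (69 / 31 * C) := by
        calc r * (c * (100 / 31)) = c * (r * (69 / 31) + r) := by ring
          _ ≤ _ := h4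
          _ = _ := by ring
      have h6 := le_of_mul_le_mul_left h5 hr0
      linarith
    · -- third
      set r : ℝ := (k : ℝ) / ((W.card : ℝ) - k) with hr
      have hWR : (W.card : ℝ) = V.card - 1 := by
        rw [hWc, Nat.cast_sub (by omega)]
        simp
      have hden : 0 < (W.card : ℝ) - k := by
        rw [hWR]
        linarith
      have hr0 : 0 < r := div_pos (by linarith) hden
      have hr17 : r ≤ 2 / 17 := by
        rw [hr, div_le_iff₀ hden, hWR]
        linarith
      have h1 := hTAU α W k x M (69 / 31) 5 (17 / 50) (2 / 25) r (by omega) (by omega) hxa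
        (by norm_num) hWsum hWsq (by norm_num) (by norm_num) (by norm_num) (by norm_num) (by norm_num)
        hr (by linarith) (by norm_num)
      have n1 := num_tau hr0 hr17
      have n2 := num_t3
      have n3 := num_t2
      set c : ℝ := (((W.powersetCard k).filter (fun A => 5 * M < ∑ i ∈ A, x i)).card : ℝ) with hc
      have hc0 : 0 ≤ c := Nat.cast_nonneg _
      have hN0 : (0 : ℝ) ≤ (NN W k x : ℝ) := Nat.cast_nonneg _
      have h2 : (6022 / 10000 : ℝ) * (8302 / 10000) * c ≤ 2198 / 10000 * (NN W k x : ℝ) := by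
        refine le_trans ?_ (h1.trans (mul_le_mul_of_nonneg_right n3 hN0))
        refine mul_le_mul_of_nonneg_right ?_ hc0
        exact mul_le_mul n1 n2 (by norm_num) (by linarith)
      linarith
  -- conclusion
  have hs := hSPL α V k x a (by omega) ha
  have hc := card_filter_add_card_filter_not (s := W.powersetCard (k - 1))
    (fun B => -M ≤ ∑ i ∈ B, x i)
  simp only [not_le] at hc
  rw [card_powersetCard, hWc] at hc
  have hNN : (V.card - 1).choose (k - 1) ≤ NN V k x := by
    rw [hs, ← hW, ← hM]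
    omega
  rw [k_choose (by omega) (by omega)]
  exact mul_le_mul_of_nonneg_left (by exact_mod_cast hNN) (Nat.cast_nonneg _)

end Pool.Agent.Q241.MS
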