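import Pool.Agent.Q113.MS.Stm

/-! # Project MS (helper113), job TAU -/

set_option autoImplicit false

namespace Pool.Agent.Q241.MS

open Finset
open Pool.Agent.Q113.MS

lemma qt_nonneg {v d : ℝ} (hv : 0 ≤ v) : 0 ≤ qt v d := div_nonneg hv (by positivity)

lemma qt_le_one {v d : ℝ} (hv : 0 ≤ v) : qt v d ≤ 1 := by
  unfold qt
  exact div_le_one_of_le₀ (by nlinarith [sq_nonneg d]) (by positivity)

/-- from a bound `cnt (v M² + D²) ≤ v M² C` with `D ≥ d M > 0` -/
lemma cnt_le {cnt v M D d Cn : ℝ} (hv : 0 < v) (hM : 0 < M) (hd : 0 < d) (hD : d * M ≤ D)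
    (hcnt : 0 ≤ cnt) (h : cnt * (v * M ^ 2 + D ^ 2) ≤ v * M ^ 2 * Cn) : cnt ≤ qt v d * Cn := by
  unfold qt
  have h1 : (d * M) ^ 2 ≤ D ^ 2 := pow_le_pow_left₀ (by positivity) hD 2
  have h2 : cnt * (v * M ^ 2 + (d * M) ^ 2) ≤ v * M ^ 2 * Cn :=
    (mul_le_mul_of_nonneg_left (by linarith) hcnt).trans h
  rw [div_mul_eq_mul_div, le_div_iff₀ (by positivity)]
  have hM2 : 0 < M ^ 2 := by positivity
  refine le_of_mul_le_mul_right ?_ hM2
  calc cnt * (v + d ^ 2) * M ^ 2 = cnt * (v * M ^ 2 + (d * M) ^ 2) := by ring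
    _ ≤ v * M ^ 2 * Cn := h2
    _ = v * Cn * M ^ 2 := by ring

section regroup

variable {α : Type} [DecidableEq α]

lemma regroup (W : Finset α) (k : ℕ) (p : Finset α → Finset α → Prop)
    [∀ A, DecidablePred (p A)] [∀ D, DecidablePred fun A => p A (D \ A)] :
    ∑ A ∈ W.powersetCard k, (((W \ A).powersetCard k).filter (fun A' => p A A')).card =
      ∑ D ∈ W.powersetCard (2 * k), ((D.powersetCard k).filter (fun A => p A (D \ A))).card := by
  rw [← card_sigma, ← card_sigma]
  refine card_nbij' (fun s => ⟨s.1 ∪ s.2, s.1⟩) (fun s => ⟨s.2, s.1 \ s.2⟩) ?_ ?_ ?_ ?_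
  · rintro ⟨A, A'⟩ h
    simp only [mem_coe, mem_sigma, mem_filter, mem_powersetCard] at h ⊢
    obtain ⟨⟨h1, h2⟩, ⟨h3, h4⟩, h5⟩ := h
    have hdis : Disjoint A A' := by
      rw [disjoint_comm]
      exact disjoint_of_subset_left h3 sdiff_disjoint
    refine ⟨⟨union_subset h1 (h3.trans sdiff_subset), ?_⟩, ⟨subset_union_left, h2⟩, ?_⟩
    · rw [card_union_of_disjoint hdis, h2, h4]
      ring
    · rw [union_sdiff_cancel_left hdis]
      exact h5
  · rintro ⟨D, A⟩ h
    simp only [mem_coe, mem_sigma, mem_filter, mem_powersetCard] at h ⊢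
    obtain ⟨⟨h1, h2⟩, ⟨h3, h4⟩, h5⟩ := h
    refine ⟨⟨h3.trans h1, h4⟩, ⟨sdiff_subset_sdiff h1 (subset_refl _), ?_⟩, h5⟩
    rw [card_sdiff_of_subset h3, h2, h4]
    omega
  · rintro ⟨A, A'⟩ h
    simp only [mem_coe, mem_sigma, mem_filter, mem_powersetCard] at h
    obtain ⟨⟨h1, h2⟩, ⟨h3, h4⟩, h5⟩ := h
    have hdis : Disjoint A A' := by
      rw [disjoint_comm]
      exact disjoint_of_subset_left h3 sdiff_disjoint
    simp only [union_sdiff_cancel_left hdis]
  · rintro ⟨D, A⟩ h
    simp only [mem_coe, mem_sigma, mem_filter, mem_powersetCard] at h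
    obtain ⟨⟨h1, h2⟩, ⟨h3, h4⟩, h5⟩ := h
    simp only [union_sdiff_of_subset h3]

end regroup

/-- **job TAU** -/
theorem t_TAU : S_LT → S_HALF → S_TAU := by
  classical
  intro hLT hHALF α _ W k y M ψ ℓ γ ε r hk h2k hM hψ hsum hsq hℓ hγ0 hγ1 hε0 hε1 hr hrγ hψw
  set w : ℝ := (1 - γ) * ℓ with hw
  have hw0 : 0 < w := mul_pos (by linarith) hℓ
  set β : ℝ := (1 - ε) / (2 * (1 + ε)) with hβ
  have hβ0 : 0 < β := div_pos (by linarith) (by linarith)
  have hkR : (1 : ℝ) ≤ k := by exact_mod_cast hk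
  have hNR : (2 : ℝ) * k ≤ W.card := by exact_mod_cast h2k
  have hr0 : 0 < r := by
    rw [hr]
    exact div_pos (by linarith) (by linarith)
  set R : ℝ := ψ * M ^ 2 with hR
  set τa : ℝ := qt (r * ψ) (γ * ℓ - r * (1 + ℓ)) with hτa
  set τb : ℝ := qt (r * ψ) (ε * ℓ + r * (1 + ℓ)) with hτb
  set t3 : ℝ := qt ψ w with ht3
  set t2 : ℝ := qt (ψ / 4) (β * w) with ht2
  have hrψ : 0 < r * ψ := mul_pos hr0 hψ
  have ht2n : 0 ≤ t2 := qt_nonneg (by positivity)
  have ht3n : 0 ≤ 1 - t3 := by
    have := qt_le_one (d := w) hψ.le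
    linarith
  set Cn : ℝ := ((W.card - k).choose k : ℝ) with hCn
  have hCn0 : 0 < Cn := by
    rw [hCn]
    exact_mod_cast Nat.choose_pos (by omega)
  set Big := (W.powersetCard k).filter (fun A => ℓ * M < ∑ i ∈ A, y i) with hBig
  set p1 : Finset α → Finset α → Prop := fun A A' =>
    ℓ * M < ∑ i ∈ A, y i ∧ -(γ * ∑ i ∈ A, y i) ≤ ∑ i ∈ A', y i ∧
      ∑ i ∈ A', y i ≤ ε * ∑ i ∈ A, y i with hp1
  -- claim 1
  have claim1 : ∀ A ∈ Big, (1 - τa - τb) * Cn ≤
      ((((W \ A).powersetCard k).filter (fun A' => p1 A A')).card : ℝ) := by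
    intro A hA
    rw [hBig, mem_filter, mem_powersetCard] at hA
    obtain ⟨⟨hAW, hAk⟩, hAl⟩ := hA
    set a : ℝ := ∑ i ∈ A, y i with ha
    have ha0 : 0 < a := lt_trans (mul_pos hℓ hM) hAl
    have hcard : (W \ A).card = W.card - k := by rw [card_sdiff_of_subset hAW, hAk]
    have hkc : k ≤ (W \ A).card := by omega
    have htot : ∑ i ∈ W \ A, y i = -M - a := by
      have := sum_sdiff (f := y) hAW
      linarith
    have hsqA : ∑ i ∈ W \ A, y i ^ 2 ≤ R :=
      (sum_le_sum_of_subset_of_nonneg sdiff_subset fun i _ _ => sq_nonneg _).trans hsq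
    have hrc : (k : ℝ) / ((W \ A).card : ℝ) = r := by
      rw [hcard, Nat.cast_sub (by omega), hr]
    have hgr : r < γ := by nlinarith
    have hMa : M < a / ℓ := by
      rw [lt_div_iff₀ hℓ, mul_comm]
      exact hAl
    have hd1 : 0 < γ * ℓ - r * (1 + ℓ) := by linarith
    have hd1' : (γ * ℓ - r * (1 + ℓ)) * M ≤ γ * a - r * (M + a) := by nlinarith
    have hd2 : 0 < ε * ℓ + r * (1 + ℓ) := by positivity
    have hd2' : (ε * ℓ + r * (1 + ℓ)) * M ≤ ε * a + r * (M + a) := by nlinarith
    -- lower tail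
    have l1 := hLT α (W \ A) k y 0 R (M + a) (γ * a) hk hkc (by simpa using hsqA)
      (by rw [htot]; linarith) (by rw [hrc]; nlinarith)
    rw [hrc, hcard] at l1
    have l1' := cnt_le (v := r * ψ) (M := M) (D := γ * a - r * (M + a)) (Cn := Cn) hrψ hM hd1 hd1'
      (Nat.cast_nonneg _) (by
        rw [hR] at l1
        calc _ = ((((W \ A).powersetCard k).filter (fun B => ∑ i ∈ B, y i < -(γ * a))).card : ℝ) *
            (r * (ψ * M ^ 2) + (γ * a - r * (M + a)) ^ 2) := by ring
          _ ≤ _ := l1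
          _ = _ := by ring)
    -- upper tail
    have l2 := hLT α (W \ A) k (fun i => -y i) 0 R (-(M + a)) (ε * a) hk hkc (by simpa using hsqA)
      (by rw [sum_neg_distrib, htot]; linarith) (by rw [hrc]; nlinarith)
    rw [hrc, hcard] at l2
    have l2' := cnt_le (v := r * ψ) (M := M) (D := ε * a + r * (M + a)) (Cn := Cn) hrψ hM hd2 hd2'
      (Nat.cast_nonneg _) (by
        rw [hR] at l2
        calc _ = ((((W \ A).powersetCard k).filter (fun B => ∑ i ∈ B, -y i < -(ε * a))).card : ℝ) *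
            (r * (ψ * M ^ 2) + (ε * a - r * (-(M + a))) ^ 2) := by ring
          _ ≤ _ := l2
          _ = _ := by ring)
    -- all
    have hall : (W \ A).powersetCard k ⊆
        (((W \ A).powersetCard k).filter (fun A' => p1 A A') ∪
          ((W \ A).powersetCard k).filter (fun B => ∑ i ∈ B, y i < -(γ * a))) ∪
          ((W \ A).powersetCard k).filter (fun B => ∑ i ∈ B, -y i < -(ε * a)) := by
      intro B hB
      rw [mem_union, mem_union, mem_filter, mem_filter, mem_filter]
      by_cases h1 : ∑ i ∈ B, y i < -(γ * a)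
      · exact Or.inl (Or.inr ⟨hB, h1⟩)
      · by_cases h2 : ∑ i ∈ B, -y i < -(ε * a)
        · exact Or.inr ⟨hB, h2⟩
        · rw [sum_neg_distrib] at h2
          exact Or.inl (Or.inl ⟨hB, hAl, not_lt.mp h1, by linarith⟩)
    have hc1 := (card_le_card hall).trans ((card_union_le _ _).trans
      (Nat.add_le_add_right (card_union_le _ _) _))
    rw [card_powersetCard, hcard] at hc1
    have hc2 : Cn ≤ ((((W \ A).powersetCard k).filter (fun A' => p1 A A')).card : ℝ) +
        ((((W \ A).powersetCard k).filter (fun B => ∑ i ∈ B, y i < -(γ * a))).card : ℝ) +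
        ((((W \ A).powersetCard k).filter (fun B => ∑ i ∈ B, -y i < -(ε * a))).card : ℝ) := by
      rw [hCn]
      exact_mod_cast hc1
    linarith
  -- the pairs
  have hP1 : (1 - τa - τb) * Cn * (Big.card : ℝ) ≤
      ((∑ A ∈ W.powersetCard k, (((W \ A).powersetCard k).filter (fun A' => p1 A A')).card : ℕ) : ℝ) := by
    push_cast
    calc (1 - τa - τb) * Cn * (Big.card : ℝ) = ∑ _A ∈ Big, (1 - τa - τb) * Cn := by
          rw [sum_const, nsmul_eq_mul]
          ring
      _ ≤ ∑ A ∈ Big, ((((W \ A).powersetCard k).filter (fun A' => p1 A A')).card : ℝ) :=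
          sum_le_sum claim1
      _ ≤ _ := sum_le_sum_of_subset_of_nonneg (filter_subset _ _) fun _ _ _ => Nat.cast_nonneg _
  rw [regroup W k p1] at hP1
  -- the good sets
  have hG : ((∑ D ∈ W.powersetCard (2 * k), ((D.powersetCard k).filter
      (fun A => 0 ≤ ∑ i ∈ A, y i)).card : ℕ) : ℝ) = NN W k y * Cn := by
    have h1 := regroup W k (fun A _ => 0 ≤ ∑ i ∈ A, y i)
    rw [← h1]
    have h2 : ∀ A ∈ W.powersetCard k,
        (((W \ A).powersetCard k).filter (fun _ => 0 ≤ ∑ i ∈ A, y i)).card =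
          if 0 ≤ ∑ i ∈ A, y i then (W.card - k).choose k else 0 := by
      intro A hA
      rw [mem_powersetCard] at hA
      split_ifs with h
      · rw [filter_true_of_mem (fun _ _ => h), card_powersetCard, card_sdiff_of_subset hA.1, hA.2]
      · rw [filter_false_of_mem (fun _ _ => h), card_empty]
    rw [sum_congr rfl h2, ← sum_filter, sum_const, smul_eq_mul]
    unfold NN
    rw [Nat.cast_mul, hCn]
  have hD : ∀ D ∈ W.powersetCard (2 * k),
      (1 - t3) * (((D.powersetCard k).filter (fun A => p1 A (D \ A))).card : ℝ) ≤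
        t2 * (((D.powersetCard k).filter (fun A => 0 ≤ ∑ i ∈ A, y i)).card : ℝ) := by
    intro D hDm
    rw [mem_powersetCard] at hDm
    obtain ⟨hDW, hDc⟩ := hDm
    set d : ℝ := ∑ i ∈ D, y i with hd
    rcases ((D.powersetCard k).filter (fun A => p1 A (D \ A))).eq_empty_or_nonempty with he | he
    · rw [he, card_empty, Nat.cast_zero, mul_zero]
      exact mul_nonneg ht2n (Nat.cast_nonneg _)
    · have hfact : ∀ A ∈ (D.powersetCard k).filter (fun A => p1 A (D \ A)),
          w * M < d ∧ d / 2 + β * d ≤ ∑ i ∈ A, y i := by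
        intro A hA
        rw [mem_filter, mem_powersetCard] at hA
        obtain ⟨⟨hAD, -⟩, h1, h2, h3⟩ := hA
        have h4 : ∑ i ∈ D \ A, y i = d - ∑ i ∈ A, y i := by
          have := sum_sdiff (f := y) hAD
          linarith
        rw [h4] at h2 h3
        constructor
        · rw [hw]
          nlinarith
        · have h5 : d / 2 + β * d = d / (1 + ε) := by
            rw [hβ]
            field_simp
            ring
          rw [h5, div_le_iff₀ (by linarith)]
          linarith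
      obtain ⟨A0, hA0⟩ := he
      have hdw := (hfact A0 hA0).1
      have hd0 : 0 < d := lt_trans (mul_pos hw0 hM) hdw
      have hRd : R ≤ d ^ 2 := by
        rw [hR]
        calc ψ * M ^ 2 ≤ w ^ 2 * M ^ 2 := mul_le_mul_of_nonneg_right hψw (sq_nonneg M)
          _ = (w * M) ^ 2 := by ring
          _ ≤ d ^ 2 := pow_le_pow_left₀ (by positivity) hdw.le 2
      have hsqD : ∑ i ∈ D, y i ^ 2 ≤ R :=
        (sum_le_sum_of_subset_of_nonneg hDW fun i _ _ => sq_nonneg _).trans hsq
      have hh1 := (hHALF α D k y R (β * d) hk hDc hsqD hRd (mul_pos hβ0 hd0)).1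
      have hh2 := (hHALF α D k y R (d / 2) hk hDc hsqD hRd (by linarith)).2
      rw [← hd] at hh1 hh2
      set C2 : ℝ := ((2 * k).choose k : ℝ) with hC2
      have hb1 := cnt_le (v := ψ / 4) (M := M) (D := β * d) (d := β * w) (Cn := C2) (by positivity) hM
        (by positivity) (by nlinarith) (Nat.cast_nonneg _) (by
          rw [hR] at hh1
          calc _ = (((D.powersetCard k).filter (fun A => d / 2 + β * d ≤ ∑ i ∈ A, y i)).card : ℝ) *
              (ψ * M ^ 2 / 4 + (β * d) ^ 2) := by ring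
            _ ≤ _ := hh1
            _ = _ := by ring)
      have hb2 := cnt_le (v := ψ) (M := M) (D := d) (d := w) (Cn := C2) hψ hM
        hw0 hdw.le (Nat.cast_nonneg _) (by
          rw [hR] at hh2
          calc _ = 4 * ((((D.powersetCard k).filter (fun A => ∑ i ∈ A, y i ≤ d / 2 - d / 2)).card : ℝ) *
              (ψ * M ^ 2 / 4 + (d / 2) ^ 2)) := by ring
            _ ≤ 4 * (ψ * M ^ 2 / 4 * C2) := by linarith
            _ = _ := by ring)
      -- bad
      have hbad : (((D.powersetCard k).filter (fun A => p1 A (D \ A))).card : ℝ) ≤ t2 * C2 := by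
        refine le_trans ?_ hb1
        have : ((D.powersetCard k).filter (fun A => p1 A (D \ A))) ⊆
            (D.powersetCard k).filter (fun A => d / 2 + β * d ≤ ∑ i ∈ A, y i) := by
          intro A hA
          exact mem_filter.mpr ⟨(mem_filter.mp hA).1, (hfact A hA).2⟩
        exact_mod_cast card_le_card this
      -- good
      have hgood : (1 - t3) * C2 ≤
          (((D.powersetCard k).filter (fun A => 0 ≤ ∑ i ∈ A, y i)).card : ℝ) := by
        have hall : D.powersetCard k ⊆
            (D.powersetCard k).filter (fun A => 0 ≤ ∑ i ∈ A, y i) ∪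
              (D.powersetCard k).filter (fun A => ∑ i ∈ A, y i ≤ d / 2 - d / 2) := by
          intro A hA
          rw [mem_union, mem_filter, mem_filter]
          by_cases h1 : 0 ≤ ∑ i ∈ A, y i
          · exact Or.inl ⟨hA, h1⟩
          · exact Or.inr ⟨hA, by linarith⟩
        have hc1 := (card_le_card hall).trans (card_union_le _ _)
        rw [card_powersetCard, hDc] at hc1
        have hc2 : C2 ≤ (((D.powersetCard k).filter (fun A => 0 ≤ ∑ i ∈ A, y i)).card : ℝ) +
            (((D.powersetCard k).filter (fun A => ∑ i ∈ A, y i ≤ d / 2 - d / 2)).card : ℝ) := by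
          rw [hC2]
          exact_mod_cast hc1
        linarith
      calc (1 - t3) * (((D.powersetCard k).filter (fun A => p1 A (D \ A))).card : ℝ)
          ≤ (1 - t3) * (t2 * C2) := mul_le_mul_of_nonneg_left hbad ht3n
        _ = t2 * ((1 - t3) * C2) := by ring
        _ ≤ _ := mul_le_mul_of_nonneg_left hgood ht2n
  have hfinal : (1 - t3) * ((1 - τa - τb) * Cn * (Big.card : ℝ)) ≤ t2 * (NN W k y * Cn) := by
    calc (1 - t3) * ((1 - τa - τb) * Cn * (Big.card : ℝ))
        ≤ (1 - t3) * ((∑ D ∈ W.powersetCard (2 * k),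
            ((D.powersetCard k).filter (fun A => p1 A (D \ A))).card : ℕ) : ℝ) :=
          mul_le_mul_of_nonneg_left hP1 ht3n
      _ = ∑ D ∈ W.powersetCard (2 * k),
            (1 - t3) * (((D.powersetCard k).filter (fun A => p1 A (D \ A))).card : ℝ) := by
          push_cast
          rw [mul_sum]
      _ ≤ ∑ D ∈ W.powersetCard (2 * k),
            t2 * (((D.powersetCard k).filter (fun A => 0 ≤ ∑ i ∈ A, y i)).card : ℝ) := sum_le_sum hD
      _ = t2 * (NN W k y * Cn) := by
          rw [← hG]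
          push_cast
          rw [mul_sum]
  refine le_of_mul_le_mul_right ?_ hCn0
  calc (1 - τa - τb) * (1 - t3) * (Big.card : ℝ) * Cn
      = (1 - t3) * ((1 - τa - τb) * Cn * (Big.card : ℝ)) := by ring
    _ ≤ t2 * (NN W k y * Cn) := hfinal
    _ = t2 * (NN W k y : ℝ) * Cn := by ring

end Pool.Agent.Q241.MS
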